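import Pool.Agent.R688.BT.Sem

/-!
# Betti numbers of the semigroup rings of `S_{2,4}` and `S_{2,5}` (MP_c132d1_al, Q1)
-/

set_option autoImplicit false

namespace Pool.Agent.Results.MP_c132d1_al.BettiNumbers

/-- the defining ideal: the kernel of `k[X_0, ..., X_{M-1}] → k[t]`, `X_i ↦ t ^ (g i)`; the quotient
by it is the semigroup ring of the semigroup generated by the `g i` -/
noncomputable def defIdeal (k : Type) [Field k] {M : ℕ} (g : Fin M → ℕ) :
    Ideal (MvPolynomial (Fin M) k) :=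
  RingHom.ker (MvPolynomial.aeval (R := k)
    (fun i : Fin M => (Polynomial.X : Polynomial k) ^ g i))

/-- the ideal generated by the variables -/
noncomputable def varIdeal (k : Type) [Field k] (M : ℕ) : Ideal (MvPolynomial (Fin M) k) :=
  Ideal.span (Set.range (MvPolynomial.X : Fin M → MvPolynomial (Fin M) k))

/-- the `j`-th Betti number of the semigroup ring: the length (that is, the dimension over the
residue field `k`) of `Tor_j^R(R / I, k)`, where `R = k[X_0, ..., X_{M-1}]`, `I` is the defining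
ideal and `k = R / (X_0, ..., X_{M-1})` -/
noncomputable def betti (k : Type) [Field k] {M : ℕ} (g : Fin M → ℕ) (j : ℕ) : ℕ∞ :=
  Module.length (MvPolynomial (Fin M) k)
    (((CategoryTheory.Tor' (ModuleCat.{0} (MvPolynomial (Fin M) k)) j).obj
      (ModuleCat.of (MvPolynomial (Fin M) k) (MvPolynomial (Fin M) k ⧸ defIdeal k g))).obj
      (ModuleCat.of (MvPolynomial (Fin M) k) (MvPolynomial (Fin M) k ⧸ varIdeal k M)))

/-- `g` lists in increasing order the integers `e + i` with `0 ≤ i ≤ e - 1` and `i ≠ m, n`: the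
minimal generators of the semigroup `S_{m,n}` -/
def Lists (e m n : ℕ) {M : ℕ} (g : Fin M → ℕ) : Prop :=
  StrictMono g ∧ ∀ s, (∃ i, g i = s) ↔ ∃ i < e, i ≠ m ∧ i ≠ n ∧ s = e + i

/-- For every `e ≥ 6`, every field `k` and every `j ≥ 1`, the `j`-th Betti numbers of the
semigroup rings of `S_{2,4}` and of `S_{2,5}` are both equal to `j * C(e - 2, j + 1)`. -/
theorem result (k : Type) [Field k] (e : ℕ) (he : 6 ≤ e) (j : ℕ) (hj : 1 ≤ j) :
    (∀ g : Fin (e - 2) → ℕ, Lists e 2 4 g → betti k g j = ((j * (e - 2).choose (j + 1) : ℕ) : ℕ∞)) ∧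
    (∀ g : Fin (e - 2) → ℕ, Lists e 2 5 g → betti k g j = ((j * (e - 2).choose (j + 1) : ℕ) : ℕ∞)) :=
  ⟨fun g hg => Pool.Agent.R688.BT.main k (e - 2) e 4 (by omega) he (Or.inl rfl) g hg.1 hg.2 j hj,
    fun g hg => Pool.Agent.R688.BT.main k (e - 2) e 5 (by omega) he (Or.inr rfl) g hg.1 hg.2 j hj⟩

end Pool.Agent.Results.MP_c132d1_al.BettiNumbers
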